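import Pool.Agent.Helper2.PD.Corners
import Pool.Agent.Helper49.PD.Special

/-!
# S4: colourings of the faces, walks along one Seifert circle

The edge `e` leaves the passage `e` and enters the passage `nxt e`, the next edge of the Seifert circle is `op (nxt e)`, the edge of the other Seifert circle
which leaves the crossing is `nxt e`. If `lf (nxt e) = true` the crossing is on the left of the circle of `e`.
-/

set_option autoImplicit false

namespace Pool.Agent.Helper57.S4

open Pool.Agent.Helper85.Exp Pool.Agent.Helper2.PD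

variable {P : Type}

/-- A colouring of the faces: `N + s ^ 2 S = s (W + E)` at every crossing. -/
def Col (G : Sh P) (s : ℂ) (c : Face G → ℂ) : Prop :=
  ∀ x, G.lf x = true → c (Rf G x) + s ^ 2 * c (Lf G (G.nxt.symm x)) = s * (c (Lf G x) + c (Rf G (G.op x)))

/-- The next edge of the Seifert circle. -/
def sq (G : Sh P) (e : P) : P := G.op (G.nxt e)

section

variable {G : Sh P}

theorem lf_sq (ho : ∀ i, G.op i ≠ i) (e : P) : G.lf (sq G e) = !G.lf (G.nxt e) := G.lf_op _ (ho _)

theorem op_sq (e : P) : G.op (sq G e) = G.nxt e := G.op_op _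

theorem sq_inj : Function.Injective (sq G) := fun a b h => G.nxt.injective (by
  have h1 := congrArg G.op h
  rwa [op_sq, op_sq] at h1)

/-- The four faces at a crossing on the left of the circle. -/
theorem left_S {e : P} : Lf G (G.nxt.symm (G.nxt e)) = Lf G e := by rw [Equiv.symm_apply_apply]

theorem left_N {e : P} (h : G.lf (G.nxt e) = true) : Rf G (G.nxt e) = Lf G (sq G e) := corner_N h

theorem left_E (ho : ∀ i, G.op i ≠ i) {e : P} (h : G.lf (G.nxt e) = true) : Rf G (sq G e) = Rf G e := by
  have h1 := corner_E h (ho _)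
  rw [Equiv.symm_apply_apply] at h1
  exact h1.symm

/-- The four faces at a crossing on the right of the circle. -/
theorem right_lf (ho : ∀ i, G.op i ≠ i) {e : P} (h : G.lf (G.nxt e) = false) : G.lf (sq G e) = true := by
  rw [lf_sq ho, h]
  rfl

theorem pre_op_sq {e : P} : G.nxt.symm (G.op (sq G e)) = e := by rw [op_sq, Equiv.symm_apply_apply]

theorem right_S (ho : ∀ i, G.op i ≠ i) {e : P} (h : G.lf (G.nxt e) = false) : Lf G (G.nxt.symm (sq G e)) = Rf G e := by
  rw [corner_S (right_lf ho h), pre_op_sq]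

theorem right_W (ho : ∀ i, G.op i ≠ i) {e : P} (h : G.lf (G.nxt e) = false) : Lf G (sq G e) = Lf G e := by
  rw [corner_W (right_lf ho h) (ho _), pre_op_sq]

theorem right_E {e : P} : Rf G (G.op (sq G e)) = Rf G (G.nxt e) := by rw [op_sq]

/-- Step of a colouring at a crossing on the left. -/
theorem Col.left {s : ℂ} {c : Face G → ℂ} (hc : Col G s c) (ho : ∀ i, G.op i ≠ i) {e : P} (h : G.lf (G.nxt e) = true) :
    c (Lf G (sq G e)) + s ^ 2 * c (Lf G e) = s * (c (Lf G (G.nxt e)) + c (Rf G e)) ∧ Rf G (sq G e) = Rf G e := by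
  have h1 := hc _ h
  have h2 := left_E ho h
  rw [left_N h, left_S] at h1
  refine ⟨?_, h2⟩
  rw [h1, ← h2]
  rfl

/-- Step of a colouring at a crossing on the right. -/
theorem Col.right {s : ℂ} {c : Face G → ℂ} (hc : Col G s c) (ho : ∀ i, G.op i ≠ i) {e : P} (h : G.lf (G.nxt e) = false) :
    c (Rf G (sq G e)) + s ^ 2 * c (Rf G e) = s * (c (Lf G e) + c (Rf G (G.nxt e))) ∧ Lf G (sq G e) = Lf G e := by
  have h1 := hc _ (right_lf ho h)
  have h2 := right_W ho h
  rw [right_S ho h, h2, right_E] at h1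
  exact ⟨h1, h2⟩

/-- **[K]** The face `Rf p` in front of the crossing of `p` is in front of only one crossing: the walks along its two sides end at the same crossing. -/
theorem key [Fintype P] (ho : ∀ i, G.op i ≠ i) {p : P} (hp : G.lf p = true) (hk : kf G (Rf G p) = 1) :
    ∃ a b : ℕ, (∀ i < a, G.lf (G.nxt ((sq G)^[i] p)) = true) ∧ G.lf (G.nxt ((sq G)^[a] p)) = false ∧
      (∀ i < b, G.lf (G.nxt ((sq G)^[i] (G.op p))) = false) ∧ G.lf (G.nxt ((sq G)^[b] (G.op p))) = true ∧
      G.nxt ((sq G)^[a] p) = sq G ((sq G)^[b] (G.op p)) := by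
  obtain ⟨q, -, hq⟩ := kf_one_S ho hk
  obtain ⟨a, b, h1, h2, h3, h4, -, -, h5⟩ := Pool.Agent.Helper49.PD.regW_of (C := fun _ => False) ho hp
    (fun _ _ h => h) (fun x y hx hy hx' hy' => (hq x hx hx').trans (hq y hy hy').symm)
  exact ⟨a, b, h1, h2, h3, h4, h5⟩

end

end Pool.Agent.Helper57.S4
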