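import Pool.Agent.Helper57.S4.Rigid
import Pool.Agent.Helper60.S4.RDefs

/-!
# MIX: colourings are constant along rigid circles

In `Helper60.S4.RDefs` the side of a crossing is given by the visit: the letter after the edge `e` is on the side `lf (nxt e) = δ` (`true`: left), its visit is
`sq e = op (nxt e)`, `lf (sq e) = !δ`, the other circle leaves on the edge `nxt e`.
-/

set_option autoImplicit false

namespace Pool.Agent.Helper57.S4

open Pool.Agent.Helper85.Exp Pool.Agent.Helper2.PD Pool.Agent.Helper43.Pln Pool.Agent.Helper60.S4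
open Pool.Agent.Helper69.S4 (Sec)

variable {P : Type} [Fintype P] {G : Sh P}

/-- A visit on a circle is the visit of a letter. -/
theorem visit_letter {a p : P} (hp : Same G a p) : ∃ e, S G a e ∧ sq G e = p :=
  ⟨G.nxt.symm (G.op p), Equiv.Perm.SameCycle.trans hp (S_pre p), by
    unfold sq
    rw [Equiv.apply_symm_apply, G.op_op]⟩

theorem two_of (ho : ∀ i, G.op i ≠ i) {a : P} (h : TwoSided G a) (d : Bool) : kf G (Fc G d a) ≠ 0 := by
  intro h0
  obtain ⟨p, hp, hl⟩ := h (!d)
  have h1 : Fc G d p = Fc G d a := cap_same ho h0 hp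
  rw [← h1] at h0
  cases d with
  | true =>
    have h2 : G.lf (G.op p) = true := by rw [lf_op' ho, hl]; rfl
    have h3 := corner_N h2
    rw [G.op_op] at h3
    exact kf_zero_N h0 _ h2 h3
  | false => exact kf_zero_N h0 _ hl rfl

theorem letter_of_two (ho : ∀ i, G.op i ≠ i) {a : P} (h : TwoSided G a) (δ : Bool) : ∃ e, S G a e ∧ G.lf (G.nxt e) = δ := by
  obtain ⟨n, hn⟩ := letter_exists ho (two_of ho h) δ
  exact ⟨_, S_iter a n, hn⟩

/-- The cap of a one-sided circle. -/
theorem cap_of_one (ho : ∀ i, G.op i ≠ i) {x y : P} (h : OneSided G x) (hy : Same G x y) : kf G (Fc G (G.lf y) x) = 0 := by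
  obtain ⟨d, hd⟩ := h
  have h1 := hd y hy
  rw [h1]
  cases d with
  | true => exact zero_L_of ho hd
  | false => exact zero_R_of ho hd

theorem only_letter (ho : ∀ i, G.op i ≠ i) {a f : P} {d : Bool} (h : Only G d a f) {e : P} (he : S G a e) (hl : G.lf (G.nxt e) = !d) :
    S G f (G.nxt e) := by
  have h1 := h (sq G e) (S_sq he) (by rw [lf_sq ho, hl, Bool.not_not])
  rw [op_sq] at h1
  exact h1

theorem only2_letter (ho : ∀ i, G.op i ≠ i) {a f g : P} {d : Bool} (h : Only2 G d a f g) {e : P} (he : S G a e)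
    (hl : G.lf (G.nxt e) = !d) : S G f (G.nxt e) ∨ S G g (G.nxt e) := by
  have h1 := h (sq G e) (S_sq he) (by rw [lf_sq ho, hl, Bool.not_not])
  rw [op_sq] at h1
  exact h1

/-- Side form of type (1, 1): the neighbour on the side of the letters `δ` is `x δ`. -/
theorem loc_side (ho : ∀ i, G.op i ≠ i) {s : ℂ} (hs : Sec s) {c : Face G → ℂ} (hc : Col G s c) {a : P} (h2 : TwoSided G a) {x : Bool → P}
    (hx : ∀ d, OneSided G (x d)) (hn : ∀ e, S G a e → S G (x (G.lf (G.nxt e))) (G.nxt e)) {e : P} (he : S G a e) (d : Bool) :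
    c (Fc G d (sq G e)) = c (Fc G d e) := by
  refine rigid11 ho hs hc (two_of ho h2) (x := x) (fun δ => ?_) hn he d
  obtain ⟨e', he', hl⟩ := letter_of_two ho h2 δ
  have h1 := hn e' he'
  rw [hl] at h1
  have h3 := cap_of_one ho (hx δ) h1
  rw [hl] at h3
  exact h3

/-- **Type (1, 1).** -/
theorem loc11 (ho : ∀ i, G.op i ≠ i) {s : ℂ} (hs : Sec s) {c : Face G → ℂ} (hc : Col G s c) {a : P} (h : Rig11 G a) {e : P}
    (he : Same G a e) : c (Lf G (sq G e)) = c (Lf G e) ∧ c (Rf G (sq G e)) = c (Rf G e) := by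
  obtain ⟨h2, x, y, hx, hy, hax, hay⟩ := h
  have key := loc_side ho hs hc h2 (x := fun d => if d = true then x else y) (fun d => by
      cases d with
      | true => exact hx
      | false => exact hy) (fun e he => by
      cases hl : G.lf (G.nxt e) with
      | true => exact only_letter ho hax he hl
      | false => exact only_letter ho hay he hl) he
  exact ⟨key true, key false⟩

/-- The letters on the side `δ` of the circle of `a` are first letters with `U`, then letters with `V`, and the face is the same at both changes. -/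
def SepData (G : Sh P) (δ : Bool) (a U V : P) : Prop :=
  ∃ (a' : P) (M j : ℕ), S G a a' ∧ (sq G)^[M] a' = a' ∧ j + 1 < M ∧ G.lf (G.nxt ((sq G)^[j] a')) = δ ∧
    (∃ k < M, j < k ∧ G.lf (G.nxt ((sq G)^[k] a')) = δ) ∧
    (∀ k < M, G.lf (G.nxt ((sq G)^[k] a')) = δ → k ≤ j → S G U (G.nxt ((sq G)^[k] a'))) ∧
    (∀ k < M, G.lf (G.nxt ((sq G)^[k] a')) = δ → j < k → S G V (G.nxt ((sq G)^[k] a'))) ∧
    Fc G δ ((sq G)^[j + 1] a') = Fc G δ a'

/-- Side form of type (2, 1). -/
theorem loc_sep (ho : ∀ i, G.op i ≠ i) {s : ℂ} (hs : Sec s) {c : Face G → ℂ} (hc : Col G s c) {a U V y : P} {δ : Bool} (h2 : TwoSided G a)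
    (hU : OneSided G U) (hV : OneSided G V) (hy : OneSided G y) (hsep : SepData G δ a U V)
    (hn : ∀ e, S G a e → G.lf (G.nxt e) = !δ → S G y (G.nxt e)) {e : P} (he : S G a e) (d : Bool) :
    c (Fc G d (sq G e)) = c (Fc G d e) := by
  obtain ⟨a', M, j, haa, hM, hjM, hj, ⟨k₂, hk₂, hjk₂, hl₂⟩, h1, h3, hf⟩ := hsep
  have hUz : kf G (Fc G δ U) = 0 := by
    have h4 := cap_of_one ho hU (h1 j (by omega) hj le_rfl)
    rw [hj] at h4
    exact h4
  have hVz : kf G (Fc G δ V) = 0 := by
    have h4 := cap_of_one ho hV (h3 k₂ hk₂ hl₂ hjk₂)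
    rw [hl₂] at h4
    exact h4
  have hyz : kf G (Fc G (!δ) y) = 0 := by
    obtain ⟨e', he', hl⟩ := letter_of_two ho h2 (!δ)
    have h4 := cap_of_one ho hy (hn e' he' hl)
    rw [hl] at h4
    exact h4
  have h2' : TwoSided G a' := fun d => by
    obtain ⟨p, hp, hl⟩ := h2 d
    exact ⟨p, Equiv.Perm.SameCycle.trans (Equiv.Perm.SameCycle.symm haa) hp, hl⟩
  have hk := loc_T ho hs hc hjM hM (p₁ := Fc G δ U) (p₂ := Fc G δ V) (q := Fc G (!δ) y) hj ⟨k₂, hk₂, hjk₂, hl₂⟩ (by
      obtain ⟨n, hn⟩ := letter_exists ho (two_of ho h2') (!δ)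
      refine ⟨n % M, Nat.mod_lt _ (by omega), ?_⟩
      rw [← hn]
      congr 2
      conv_rhs => rw [← Nat.mod_add_div n M]
      rw [Function.iterate_add_apply, Function.iterate_mul]
      congr 1
      exact (Function.iterate_fixed hM _).symm)
    (fun k hk hl hkj => by rw [cap_same ho hUz (h1 k hk hl hkj)])
    (fun k hk hl hkj => by rw [cap_same ho hVz (h3 k hk hl hkj)])
    (fun k hk hl => by rw [cap_same ho hyz (hn _ (haa.trans (S_iter a' k)) hl)]) hf
  exact period_red (F := fun e => c (Fc G d e)) (by omega) hM (fun k hkM => hk k hkM d) (haa.symm.trans he)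

/-- **Type (2, 1)**, with the geometry as a hypothesis. -/
theorem loc21_of (ho : ∀ i, G.op i ≠ i) {s : ℂ} (hs : Sec s) {c : Face G → ℂ} (hc : Col G s c) {a : P} (h : Rig21 G a)
    (hsep : ∀ (δ : Bool) (U V : P), ¬ S G U V → (∀ e, S G a e → G.lf (G.nxt e) = δ → S G U (G.nxt e) ∨ S G V (G.nxt e)) →
      (∃ e, S G a e ∧ G.lf (G.nxt e) = δ ∧ S G U (G.nxt e)) → (∃ e, S G a e ∧ G.lf (G.nxt e) = δ ∧ S G V (G.nxt e)) →
      (∀ p, S G V p → G.lf p = δ ∧ S G a (G.op p)) → SepData G δ a U V) {e : P}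
    (he : Same G a e) : c (Lf G (sq G e)) = c (Lf G e) ∧ c (Rf G (sq G e)) = c (Rf G e) := by
  obtain ⟨h2, d, x, b, y, hx, hb, hy, hab, hay, hba⟩ := h
  suffices key : ∀ d, c (Fc G d (sq G e)) = c (Fc G d e) from ⟨key true, key false⟩
  have hny : ∀ e, S G a e → G.lf (G.nxt e) = d → S G y (G.nxt e) := fun e he hl =>
    only_letter ho hay he (by rw [Bool.not_not]; exact hl)
  have hnx : ∀ e, S G a e → G.lf (G.nxt e) = !d → S G x (G.nxt e) ∨ S G b (G.nxt e) := fun e he hl => only2_letter ho hab he hl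
  -- only one neighbour on the side of the letters `!d`
  have one : ∀ z, OneSided G z → (∀ e, S G a e → G.lf (G.nxt e) = !d → S G z (G.nxt e)) → ∀ δ, c (Fc G δ (sq G e)) = c (Fc G δ e) := by
    intro z hz hnz
    refine loc_side ho hs hc h2 (x := fun δ => if δ = d then y else z) (fun δ => ?_) (fun e he => ?_) he
    · split_ifs
      · exact hy
      · exact hz
    · split_ifs with hl
      · exact hny e he hl
      · exact hnz e he (by cases d <;> cases hl' : G.lf (G.nxt e) <;> simp_all)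
  by_cases hxb : S G x b
  · exact one b hb fun e he hl => (hnx e he hl).elim (fun h => hxb.symm.trans h) id
  by_cases ex : ∃ e, S G a e ∧ G.lf (G.nxt e) = (!d) ∧ S G x (G.nxt e)
  · by_cases eb : ∃ e, S G a e ∧ G.lf (G.nxt e) = (!d) ∧ S G b (G.nxt e)
    · have hbl : ∀ p, S G b p → G.lf p = (!d) ∧ S G a (G.op p) := by
        intro p hp
        obtain ⟨e', -, hl', hb'⟩ := eb
        obtain ⟨δ', hδ'⟩ := hb
        have h5 : δ' = !d := by rw [← hδ' _ hb', hl']
        have h6 : G.lf p = !d := by rw [hδ' p hp, h5]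
        exact ⟨h6, hba p hp h6⟩
      exact loc_sep ho hs hc h2 hx hb hy (hsep (!d) x b hxb hnx ex eb hbl)
        (fun e he hl => hny e he (by rw [Bool.not_not] at hl; exact hl)) he
    · exact one x hx fun e he hl => (hnx e he hl).resolve_right fun h => eb ⟨e, he, hl, h⟩
  · exact one b hb fun e he hl => (hnx e he hl).resolve_left fun h => ex ⟨e, he, hl, h⟩

end Pool.Agent.Helper57.S4
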