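import Pool.Agent.Helper69.S4.Colour

/-!
# S4: the two algebraic lemmas on a walk along a two-sided Seifert circle

`F d k`: the colour on the side `d` of the edge number `k`; `g k`: the side of the letter number `k`.
-/

set_option autoImplicit false

namespace Pool.Agent.Helper57.S4

open Pool.Agent.Helper69.S4 (Sec Steps StepsT colour colourT pow_ne_one')

/-- The letters on both sides have constant caps: the colours on both sides are constant. -/
theorem alg_const {s : ℂ} (hs : Sec s) {m : ℕ} {g : ℕ → Bool} {F : Bool → ℕ → ℂ} {p : Bool → ℂ}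
    (hstep : ∀ k < m, F (g k) (k + 1) + s ^ 2 * F (g k) k = s * (p (g k) + F (!(g k)) k) ∧ F (!(g k)) (k + 1) = F (!(g k)) k)
    (hboth : ∀ d, ∃ k < m, g k = d) (hper : ∀ d, F d m = F d 0) : ∀ k ≤ m, ∀ d, F d k = F d 0 := by
  set w : List ℕ := (List.range m).map fun k => if g k = true then 0 else 1 with hw
  have hlen : w.length = m := by simp [hw]
  have hget : ∀ t (h : t < w.length), w[t] = if g t = true then 0 else 1 := by
    intro t h
    simp [hw]
  set v : ℕ → ℕ → ℂ := fun t j => if j = 0 then p true else if j = 1 then F true t else if j = 2 then F false t else p false with hv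
  have v0 : ∀ t, v t 0 = p true := fun t => rfl
  have v1 : ∀ t, v t 1 = F true t := fun t => rfl
  have v2 : ∀ t, v t 2 = F false t := fun t => rfl
  have v3 : ∀ t, v t 3 = p false := fun t => rfl
  obtain ⟨α, β, hc⟩ := colour hs (n := 2) (by norm_num) w (by
      intro a ha
      obtain ⟨k, -, rfl⟩ := List.mem_map.1 ha
      split_ifs <;> omega) (by
      intro a ha
      have ha' : a = 0 ∨ a = 1 := by omega
      rcases ha' with rfl | rfl
      · obtain ⟨k, hk, hg⟩ := hboth true
        exact List.mem_map.2 ⟨k, List.mem_range.2 hk, by rw [if_pos hg]⟩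
      · obtain ⟨k, hk, hg⟩ := hboth false
        exact List.mem_map.2 ⟨k, List.mem_range.2 hk, by rw [hg]; rfl⟩) v (by
      intro t ht
      rw [hget t ht]
      rw [hlen] at ht
      obtain ⟨h1, h2⟩ := hstep t ht
      cases hg : g t with
      | true =>
        rw [hg] at h1 h2
        simp only [if_true]
        refine ⟨fun j hj hj' => ?_, ?_⟩
        · have : j = 0 ∨ j = 2 ∨ j = 3 := by omega
          rcases this with rfl | rfl | rfl
          · rfl
          · exact h2
          · rfl
        · rw [zero_add, v1, v1, v0]
          exact h1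
      | false =>
        rw [hg] at h1 h2
        simp only [Bool.false_eq_true, if_false]
        refine ⟨fun j hj hj' => ?_, ?_⟩
        · have : j = 0 ∨ j = 1 ∨ j = 3 := by omega
          rcases this with rfl | rfl | rfl
          · rfl
          · exact h2
          · rfl
        · show v (t + 1) 2 + s ^ 2 * v t 2 = s * (v t 1 + v t 3)
          rw [v1, v2, v2, v3, add_comm (F true t)]
          exact h1) (by
      intro j hj
      rw [hlen]
      have : j = 0 ∨ j = 1 ∨ j = 2 ∨ j = 3 := by omega
      rcases this with rfl | rfl | rfl | rfl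
      · rfl
      · exact hper true
      · exact hper false
      · rfl)
  rw [hlen] at hc
  intro k hk d
  cases d with
  | true =>
    have a1 := hc k hk 1 (by norm_num)
    have a2 := hc 0 (Nat.zero_le _) 1 (by norm_num)
    rw [v1] at a1 a2
    rw [a1, a2]
  | false =>
    have a1 := hc k hk 2 (by norm_num)
    have a2 := hc 0 (Nat.zero_le _) 2 (by norm_num)
    rw [v2] at a1 a2
    rw [a1, a2]

/-- The T-shape: the cap on the side `d` changes after the letter `j` and after the last letter, the face on this side is the same at both changes. -/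
theorem alg_T {s : ℂ} (hs : Sec s) {m j : ℕ} (hj : j + 1 < m) {g : ℕ → Bool} {F : Bool → ℕ → ℂ} {d : Bool} {p₁ p₂ q : ℂ}
    (h1 : ∀ k < m, g k = d → k ≤ j → F d (k + 1) + s ^ 2 * F d k = s * (p₁ + F (!d) k))
    (h2 : ∀ k < m, g k = d → j < k → F d (k + 1) + s ^ 2 * F d k = s * (p₂ + F (!d) k))
    (h3 : ∀ k < m, g k = !d → F (!d) (k + 1) + s ^ 2 * F (!d) k = s * (q + F d k))
    (h4 : ∀ k < m, F (!(g k)) (k + 1) = F (!(g k)) k)
    (g1 : g j = d) (g2 : ∃ k < m, j < k ∧ g k = d) (g3 : ∃ k < m, g k = !d)
    (hper : ∀ d, F d m = F d 0) (hj0 : F d (j + 1) = F d 0) : ∀ k ≤ m, ∀ e, F e k = F e 0 := by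
  have hne : (!d) ≠ d := by cases d <;> simp
  set w : List ℕ := (List.range m).map fun k => if g k = d then (if k ≤ j then 0 else 2) else 1 with hw
  have hlen : w.length = m := by simp [hw]
  have hget : ∀ t (h : t < w.length), w[t] = if g t = d then (if t ≤ j then 0 else 2) else 1 := by
    intro t h
    simp [hw]
  set v : ℕ → ℕ → ℂ := fun t i => if i = 0 then p₁ else if i = 1 then (if t ≤ j + 1 then F d t else F d 0) else
    if i = 2 then F (!d) t else if i = 3 then (if t ≤ j + 1 then F d 0 else F d t) else p₂ with hv
  have v0 : ∀ t, v t 0 = p₁ := fun t => rfl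
  have v1 : ∀ t, v t 1 = if t ≤ j + 1 then F d t else F d 0 := fun t => rfl
  have v2 : ∀ t, v t 2 = F (!d) t := fun t => rfl
  have v3 : ∀ t, v t 3 = if t ≤ j + 1 then F d 0 else F d t := fun t => rfl
  have v4 : ∀ t, v t 4 = p₂ := fun t => rfl
  obtain ⟨α, β, -, -, hc⟩ := colourT hs (w := w) (by
      intro a ha
      obtain ⟨k, -, rfl⟩ := List.mem_map.1 ha
      split_ifs <;> omega) (by
      intro a ha
      have ha' : a = 0 ∨ a = 1 ∨ a = 2 := by omega
      rcases ha' with rfl | rfl | rfl
      · exact List.mem_map.2 ⟨j, List.mem_range.2 (by omega), by rw [if_pos g1, if_pos le_rfl]⟩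
      · obtain ⟨k, hk, hg⟩ := g3
        exact List.mem_map.2 ⟨k, List.mem_range.2 hk, by rw [hg, if_neg hne]⟩
      · obtain ⟨k, hk, hjk, hg⟩ := g2
        exact List.mem_map.2 ⟨k, List.mem_range.2 hk, by rw [if_pos hg, if_neg (by omega)]⟩) (f := F d 0) (d := q) (v := v) (by
      intro t ht
      rw [hget t ht]
      rw [hlen] at ht
      have h4t := h4 t ht
      by_cases hg : g t = d
      · rw [if_pos hg]
        rw [hg] at h4t
        by_cases htj : t ≤ j
        · rw [if_pos htj]
          refine ⟨fun i hi hi' => ?_, fun _ => ?_, fun h => ?_, fun h => ?_⟩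
          · have : i = 0 ∨ i = 2 ∨ i = 3 ∨ i = 4 := by omega
            rcases this with rfl | rfl | rfl | rfl
            · rfl
            · exact h4t
            · rw [v3, v3, if_pos (by omega), if_pos (by omega)]
            · rfl
          · rw [v1, v1, v0, v2, if_pos (by omega), if_pos (by omega)]
            exact h1 t ht hg htj
          · omega
          · omega
        · rw [if_neg htj]
          have e1 : v t 3 = F d t := by
            rw [v3]
            split_ifs with h
            · have : t = j + 1 := by omega
              rw [this, hj0]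
            · rfl
          have e2 : v t 1 = F d 0 := by
            rw [v1]
            split_ifs with h
            · have : t = j + 1 := by omega
              rw [this, hj0]
            · rfl
          refine ⟨fun i hi hi' => ?_, fun h => ?_, fun h => ?_, fun _ => ?_⟩
          · have : i = 0 ∨ i = 1 ∨ i = 2 ∨ i = 4 := by omega
            rcases this with rfl | rfl | rfl | rfl
            · rfl
            · rw [e2, v1, if_neg (by omega)]
            · exact h4t
            · rfl
          · omega
          · omega
          · rw [e1, v3, if_neg (by omega), v2, v4, add_comm (F (!d) t)]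
            exact h2 t ht hg (by omega)
      · have hg' : g t = !d := by
          cases hd : d <;> cases hgt : g t <;> simp_all
        rw [if_neg hg]
        rw [hg', Bool.not_not] at h4t
        have e1 : v t 1 + v t 3 - F d 0 = F d t := by
          rw [v1, v3]
          split_ifs <;> ring
        have e2 : ∀ i, i = 1 ∨ i = 3 → v (t + 1) i = v t i := by
          intro i hi
          rcases hi with rfl | rfl
          · rw [v1, v1]
            rcases lt_trichotomy t (j + 1) with h | h | h
            · rw [if_pos (by omega), if_pos (by omega), h4t]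
            · rw [if_neg (by omega), if_pos (by omega), h, hj0]
            · rw [if_neg (by omega), if_neg (by omega)]
          · rw [v3, v3]
            rcases lt_trichotomy t (j + 1) with h | h | h
            · rw [if_pos (by omega), if_pos (by omega)]
            · rw [if_neg (by omega), if_pos (by omega), h4t, h, hj0]
            · rw [if_neg (by omega), if_neg (by omega), h4t]
        refine ⟨fun i hi hi' => ?_, fun h => ?_, fun _ => ?_, fun h => ?_⟩
        · have : i = 0 ∨ i = 1 ∨ i = 3 ∨ i = 4 := by omega
          rcases this with rfl | rfl | rfl | rfl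
          · rfl
          · exact e2 1 (Or.inl rfl)
          · exact e2 3 (Or.inr rfl)
          · rfl
        · omega
        · rw [e1, v2, v2, add_comm (F d t)]
          exact h3 t ht hg'
        · omega) (by
      intro i hi
      rw [hlen]
      have : i = 0 ∨ i = 1 ∨ i = 2 ∨ i = 3 ∨ i = 4 := by omega
      rcases this with rfl | rfl | rfl | rfl | rfl
      · rfl
      · rw [v1, v1, if_neg (by omega), if_pos (by omega)]
      · exact hper _
      · rw [v3, v3, if_neg (by omega), if_pos (by omega), hper]
      · rfl) (t₀ := 0) (Nat.zero_le _) (by rw [v1, if_pos (by omega)]) (by rw [v3, if_pos (by omega)])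
  rw [hlen] at hc
  have hz : ∀ k ≤ m, F d k = F d 0 := by
    intro k hk
    have a1 := hc k hk 1 (by norm_num)
    have a3 := hc k hk 3 (by norm_num)
    have b1 := hc 0 (Nat.zero_le _) 1 (by norm_num)
    have b3 := hc 0 (Nat.zero_le _) 3 (by norm_num)
    rw [v1] at a1 b1
    rw [v3] at a3 b3
    rw [if_pos (by omega)] at b1 b3
    by_cases h : k ≤ j + 1
    · rw [if_pos h] at a1
      rw [a1, b1]
    · rw [if_neg h] at a3
      rw [a3, b3]
  have hz' : ∀ k ≤ m, F (!d) k = F (!d) 0 := by
    intro k hk
    have a2 := hc k hk 2 (by norm_num)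
    have b2 := hc 0 (Nat.zero_le _) 2 (by norm_num)
    rw [v2] at a2 b2
    rw [a2, b2]
  intro k hk e
  by_cases he : e = d
  · rw [he]
    exact hz k hk
  · have : e = !d := by
      clear hc hz hz' h1 h2 h3 h4 g1 g2 g3 hper hj0 hw hlen hget v0 v1 v2 v3 v4 hv
      cases d <;> cases e <;> first | rfl | exact absurd rfl he
    rw [this]
    exact hz' k hk

end Pool.Agent.Helper57.S4
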