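import Pool.Agent.Helper57.S4.OneG
import Pool.Agent.Helper16.PD.Finish
import Pool.Agent.Helper29.PD.CohT

/-!
# S4: at most four Seifert circles
-/

set_option autoImplicit false

namespace Pool.Agent.Helper57.S4

open Polynomial Pool.Agent.Helper85.Exp Pool.Agent.Helper60.EV2 Pool.Agent.Helper2.PD Pool.Agent.Helper43.Pln
open Pool.Agent.Helper69.S4 (Sec Triv main_of)

variable {P : Type} [Fintype P] {G : Sh P}

/-- Exactly one two-sided circle: all colourings are trivial. -/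
theorem one_triv (hG : Plane G) {a : P} (hA : ∀ e, ¬ (kf G (Lf G e) = 0 ∨ kf G (Rf G e) = 0) ↔ S G a e)
    {f₀ : Face G} (h2 : kf G f₀ ≤ 2) (h1 : ∀ f, f ≠ f₀ → kf G f ≤ 1) {s : ℂ} (hs : Sec s) : Triv G s := by
  intro κ hκ c hc
  have hfg : κ (Lf G a) ≠ κ (Rf G a) := by
    rw [hκ]
    omega
  refine Pool.Agent.Helper16.PD.span_of hG.cross hs.ne hs.lt hκ hfg (fun c hc hL hR => ?_) hc
  have key : ∀ n, c (Lf G ((sq G)^[n] a)) = 0 ∧ c (Rf G ((sq G)^[n] a)) = 0 := by
    intro n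
    induction n with
    | zero => exact ⟨hL, hR⟩
    | succ n ih =>
      rw [Function.iterate_succ_apply']
      have e1 := one hG hA hs h2 h1 hc (S_iter a n) true
      have e2 := one hG hA hs h2 h1 hc (S_iter a n) false
      rw [Fc_true, Fc_true] at e1
      rw [Fc_false, Fc_false] at e2
      exact ⟨e1.trans ih.1, e2.trans ih.2⟩
  refine Pool.Agent.Helper16.PD.finish hG hs.lt hs.ne hc (fun e h3 h4 => ?_) ⟨a, hL, hR⟩
  obtain ⟨n, hn⟩ := iter_S ((hA e).1 (by rintro (h | h); exacts [h3 h, h4 h]))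
  rw [← hn]
  exact key n

/-- **At most four Seifert circles**: all colourings are trivial in the sector. -/
theorem triv4 (hG : Plane G) (h4 : circles G ≤ 4) {s : ℂ} (hs : Sec s) : Triv G s := by
  rcases cases4 hG h4 with ⟨h5, -⟩ | h5 | ⟨-, -, ⟨f₀, h5, h6⟩, a, ha⟩
  · exact Pool.Agent.Helper29.PD.coh_Triv hG h5 h4 hs
  · intro κ hκ c hc
    exact Pool.Agent.Helper16.PD.special_span hG h5 hs.ne hs.lt hκ hc
  · exact one_triv hG ha h5.le h6 hs

/-- **At most four Seifert circles**: Q1 and the sector. -/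
theorem main4 (hG : Plane G) (h4 : circles G ≤ 4) {nab : Dg G → ℤ[X]} (hn : Cs nab) :
    LogConcave G nab ∧ ∀ z : ℂ, aeval z (nab (allPos G)) = 0 → 3 * z.re ^ 2 ≤ z.im ^ 2 :=
  main_of hG (fun _ hs => triv4 hG h4 hs) hn

end Pool.Agent.Helper57.S4
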