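import Pool.Agent.Helper57.S4.Walk
import Pool.Agent.Helper57.S4.Alg
import Pool.Agent.Helper2.PD.Cases2

/-!
# S4: a two-sided Seifert circle with one-sided neighbours

`Fc d e`: the face on the side `d` of the edge `e` (`true` = left). The letter at `e` is on the side `d` if `lf (nxt e) = d`; then the face on the side `d` changes, and
`Fc d (nxt e)` is the far face of the other circle.
-/

set_option autoImplicit false

namespace Pool.Agent.Helper57.S4

open Pool.Agent.Helper85.Exp Pool.Agent.Helper2.PD Pool.Agent.Helper43.Pln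
open Pool.Agent.Helper69.S4 (Sec)

variable {P : Type} {G : Sh P}

/-- The face on one side of an edge. -/
def Fc (G : Sh P) (d : Bool) (e : P) : Face G := if d = true then Lf G e else Rf G e

theorem Fc_true (e : P) : Fc G true e = Lf G e := rfl

theorem Fc_false (e : P) : Fc G false e = Rf G e := rfl

theorem Col.step {s : ℂ} {c : Face G → ℂ} (hc : Col G s c) (ho : ∀ i, G.op i ≠ i) {d : Bool} {e : P} (h : G.lf (G.nxt e) = d) :
    c (Fc G d (sq G e)) + s ^ 2 * c (Fc G d e) = s * (c (Fc G d (G.nxt e)) + c (Fc G (!d) e)) ∧ Fc G (!d) (sq G e) = Fc G (!d) e := by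
  cases d with
  | true => exact hc.left ho h
  | false =>
    obtain ⟨h1, h2⟩ := hc.right ho h
    refine ⟨?_, h2⟩
    show c (Rf G (sq G e)) + s ^ 2 * c (Rf G e) = s * (c (Rf G (G.nxt e)) + c (Lf G e))
    rw [h1, add_comm (c (Lf G e))]

/-- The face in front of the crossing is not a zero face. -/
theorem N_ne [Fintype P] (ho : ∀ i, G.op i ≠ i) {d : Bool} {e : P} (h : G.lf (G.nxt e) = d) : kf G (Fc G d (sq G e)) ≠ 0 := by
  cases d with
  | true =>
    rw [Fc_true, ← left_N h]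
    exact fun h0 => kf_zero_N h0 _ h rfl
  | false =>
    rw [Fc_false]
    exact fun h0 => kf_zero_N h0 _ (right_lf ho h) rfl

/-- The face in front of the crossing seen from the other circle. -/
theorem N_other (ho : ∀ i, G.op i ≠ i) {d : Bool} {e : P} (h : G.lf (G.nxt e) = d) : Fc G (!d) (G.nxt e) = Fc G d (sq G e) := by
  cases d with
  | true => exact left_N h
  | false =>
    show Lf G (G.nxt e) = Rf G (sq G e)
    rw [corner_N (right_lf ho h), op_sq]

/-- **[K]**, for both sides. -/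
theorem key' [Fintype P] (ho : ∀ i, G.op i ≠ i) {d : Bool} {e : P} (h : G.lf (G.nxt e) = d) (hk : kf G (Fc G d (sq G e)) = 1) :
    ∃ a b : ℕ, (∀ i < b, G.lf (G.nxt ((sq G)^[i] (sq G e))) = !d) ∧ G.lf (G.nxt ((sq G)^[b] (sq G e))) = d ∧
      G.nxt ((sq G)^[b] (sq G e)) = (sq G)^[a + 1] (G.nxt e) := by
  cases d with
  | true =>
    rw [Fc_true, ← left_N h] at hk
    obtain ⟨a, b, -, -, h3, h4, h5⟩ := key ho h hk
    refine ⟨a, b, h3, h4, ?_⟩
    have h6 := congrArg G.op h5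
    rw [op_sq] at h6
    rw [Function.iterate_succ_apply']
    exact h6.symm
  | false =>
    rw [Fc_false] at hk
    obtain ⟨a, b, h1, h2, -, -, h5⟩ := key ho (right_lf ho h) hk
    rw [op_sq] at h5
    refine ⟨b, a, h1, h2, ?_⟩
    rw [Function.iterate_succ_apply']
    exact h5

/-- A zero face stays on its side of the circle. -/
theorem cap_iter [Fintype P] (ho : ∀ i, G.op i ≠ i) {d : Bool} {x : P} (h : kf G (Fc G d x) = 0) (n : ℕ) :
    Fc G d ((sq G)^[n] x) = Fc G d x := by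
  induction n with
  | zero => rfl
  | succ n ih =>
    rw [Function.iterate_succ_apply']
    rw [← ih] at h ⊢
    cases d with
    | true => exact zero_L_step ho _ h
    | false => exact zero_R_step ho _ h

open Classical in
/-- The cap of the next letter on the side `d`. -/
noncomputable def NC (G : Sh P) (d : Bool) (e : P) : Face G :=
  if h : ∃ n, G.lf (G.nxt ((sq G)^[n] e)) = d then Fc G d (G.nxt ((sq G)^[Nat.find h] e)) else Fc G d e

theorem NC_eq {d : Bool} {e : P} {n : ℕ} (h1 : ∀ i < n, G.lf (G.nxt ((sq G)^[i] e)) = !d) (h2 : G.lf (G.nxt ((sq G)^[n] e)) = d) :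
    NC G d e = Fc G d (G.nxt ((sq G)^[n] e)) := by
  classical
  have h : ∃ n, G.lf (G.nxt ((sq G)^[n] e)) = d := ⟨n, h2⟩
  have h3 : Nat.find h = n := by
    rw [Nat.find_eq_iff]
    refine ⟨h2, fun m hm hm' => ?_⟩
    rw [h1 m hm] at hm'
    cases d <;> simp at hm'
  unfold NC
  rw [dif_pos h, h3]

theorem NC_of {d : Bool} {e : P} (h : G.lf (G.nxt e) = d) : NC G d e = Fc G d (G.nxt e) :=
  NC_eq (n := 0) (fun i hi => absurd hi (Nat.not_lt_zero i)) h

theorem exists_first {p : ℕ → Bool} {d : Bool} (h : ∃ n, p n = d) : ∃ n, (∀ i < n, p i = !d) ∧ p n = d := by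
  classical
  refine ⟨Nat.find h, fun i hi => ?_, Nat.find_spec h⟩
  have := Nat.find_min h hi
  cases hd : d <;> cases hp : p i <;> simp_all

theorem NC_skip {d : Bool} {e : P} (h : G.lf (G.nxt e) = !d) (hex : ∃ n, G.lf (G.nxt ((sq G)^[n] (sq G e))) = d) :
    NC G d (sq G e) = NC G d e := by
  obtain ⟨n, h1, h2⟩ := exists_first hex
  rw [NC_eq h1 h2, NC_eq (e := e) (n := n + 1)]
  · rfl
  · intro i hi
    rcases i with _ | i
    · exact h
    · exact h1 i (by omega)
  · exact h2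

theorem NC_key [Fintype P] (ho : ∀ i, G.op i ≠ i) {d : Bool} {e : P} (h : G.lf (G.nxt e) = d) (hk : kf G (Fc G d (sq G e)) = 1)
    (h0 : kf G (Fc G d (G.nxt e)) = 0) : NC G d (sq G e) = NC G d e := by
  obtain ⟨a, b, h1, h2, h3⟩ := key' ho h hk
  rw [NC_eq h1 h2, NC_of h, h3]
  exact cap_iter ho h0 _

/-! ### The walk -/

/-- A function on the walk which changes at most after one edge is constant. -/
theorem const_one {α : Type*} {t : ℕ → P} (ht : ∀ k, t (k + 1) = sq G (t k)) {F : P → α} {e₀ : P} (h0 : t 0 = sq G e₀)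
    (h : ∀ k, t k ≠ e₀ → F (t (k + 1)) = F (t k)) : ∀ k, F (t k) = F (t 0) := by
  intro k
  induction k with
  | zero => rfl
  | succ k ih =>
    by_cases h1 : t k = e₀
    · rw [ht, h1, ← h0]
    · rw [h k h1, ih]

section Loc

variable [Fintype P]

/-- The letters on both sides have constant caps. -/
theorem loc_const (ho : ∀ i, G.op i ≠ i) {s : ℂ} (hs : Sec s) {c : Face G → ℂ} (hc : Col G s c) {a : P} {M : ℕ}
    (hM : (sq G)^[M] a = a) (hboth : ∀ d, ∃ k < M, G.lf (G.nxt ((sq G)^[k] a)) = d) {p : Bool → Face G}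
    (hp : ∀ k < M, Fc G (G.lf (G.nxt ((sq G)^[k] a))) (G.nxt ((sq G)^[k] a)) = p (G.lf (G.nxt ((sq G)^[k] a)))) :
    ∀ k ≤ M, ∀ d, c (Fc G d ((sq G)^[k] a)) = c (Fc G d a) := by
  refine alg_const hs (g := fun k => G.lf (G.nxt ((sq G)^[k] a))) (F := fun d k => c (Fc G d ((sq G)^[k] a)))
    (p := fun d => c (p d)) ?_ hboth ?_
  · intro k hk
    obtain ⟨h1, h2⟩ := hc.step ho (e := (sq G)^[k] a) rfl
    simp only [Function.iterate_succ_apply']
    refine ⟨?_, by rw [h2]⟩
    rw [h1, hp k hk]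
  · intro d
    simp only [hM, Function.iterate_zero, id_eq]

/-- The T-shape. -/
theorem loc_T (ho : ∀ i, G.op i ≠ i) {s : ℂ} (hs : Sec s) {c : Face G → ℂ} (hc : Col G s c) {a : P} {M j : ℕ} (hj : j + 1 < M)
    (hM : (sq G)^[M] a = a) {d : Bool} {p₁ p₂ q : Face G} (g1 : G.lf (G.nxt ((sq G)^[j] a)) = d)
    (g2 : ∃ k < M, j < k ∧ G.lf (G.nxt ((sq G)^[k] a)) = d) (g3 : ∃ k < M, G.lf (G.nxt ((sq G)^[k] a)) = !d)
    (h1 : ∀ k < M, G.lf (G.nxt ((sq G)^[k] a)) = d → k ≤ j → Fc G d (G.nxt ((sq G)^[k] a)) = p₁)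
    (h2 : ∀ k < M, G.lf (G.nxt ((sq G)^[k] a)) = d → j < k → Fc G d (G.nxt ((sq G)^[k] a)) = p₂)
    (h3 : ∀ k < M, G.lf (G.nxt ((sq G)^[k] a)) = !d → Fc G (!d) (G.nxt ((sq G)^[k] a)) = q)
    (hf : Fc G d ((sq G)^[j + 1] a) = Fc G d a) : ∀ k ≤ M, ∀ e, c (Fc G e ((sq G)^[k] a)) = c (Fc G e a) := by
  refine alg_T hs (g := fun k => G.lf (G.nxt ((sq G)^[k] a))) (F := fun d k => c (Fc G d ((sq G)^[k] a))) (d := d)
    (p₁ := c p₁) (p₂ := c p₂) (q := c q) hj ?_ ?_ ?_ ?_ g1 g2 g3 ?_ ?_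
  · intro k hk hg hkj
    obtain ⟨h5, h6⟩ := hc.step ho hg
    rw [Function.iterate_succ_apply', h5, h1 k hk hg hkj]
  · intro k hk hg hkj
    obtain ⟨h5, h6⟩ := hc.step ho hg
    rw [Function.iterate_succ_apply', h5, h2 k hk hg hkj]
  · intro k hk hg
    obtain ⟨h5, h6⟩ := hc.step ho hg
    rw [Bool.not_not] at h5
    rw [Function.iterate_succ_apply', h5, h3 k hk hg]
  · intro k hk
    obtain ⟨h5, h6⟩ := hc.step ho (e := (sq G)^[k] a) rfl
    simp only [Function.iterate_succ_apply']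
    rw [h6]
  · intro d
    simp only [hM, Function.iterate_zero, id_eq]
  · simp only [Function.iterate_zero, id_eq]
    rw [hf]

end Loc

end Pool.Agent.Helper57.S4
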