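import Pool.Agent.Helper57.S4.One
import Pool.Agent.Helper2.PD.Cases3

/-!
# S4: exactly one two-sided Seifert circle, at most one face with `k_f = 2`
-/

set_option autoImplicit false

namespace Pool.Agent.Helper57.S4

open Pool.Agent.Helper85.Exp Pool.Agent.Helper2.PD Pool.Agent.Helper43.Pln
open Pool.Agent.Helper69.S4 (Sec)

variable {P : Type} [Fintype P] {G : Sh P}

theorem S_iter (a : P) (n : ℕ) : S G a ((sq G)^[n] a) := by
  induction n with
  | zero => exact Equiv.Perm.SameCycle.refl _ _
  | succ n ih =>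
    rw [Function.iterate_succ_apply']
    exact ih.trans (S_step _)

theorem iter_S {a e : P} (h : S G a e) : ∃ n : ℕ, (sq G)^[n] a = e := by
  obtain ⟨n, hn⟩ := Equiv.Perm.SameCycle.exists_nat_pow_eq h
  refine ⟨n, ?_⟩
  rw [← hn, ← Equiv.Perm.iterate_eq_pow]
  rfl

theorem S_sq {a e : P} (h : S G a e) : S G a (sq G e) := h.trans (S_step e)

/-- Every two-sided circle has letters on both sides. -/
theorem letter_exists (ho : ∀ i, G.op i ≠ i) {a : P} (h2 : ∀ d, kf G (Fc G d a) ≠ 0) (d : Bool) : ∃ n, G.lf (G.nxt ((sq G)^[n] a)) = d := by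
  by_contra hcon
  push Not at hcon
  have h1 : ∀ e, S G a e → G.lf e = d := by
    intro e he
    have h3 : S G a (G.nxt.symm (G.op e)) := he.trans (S_pre e)
    obtain ⟨n, hn⟩ := iter_S h3
    have h4 := hcon n
    rw [hn, Equiv.apply_symm_apply, lf_op' ho] at h4
    cases hd : d <;> cases hl : G.lf e <;> simp_all
  cases d with
  | true => exact h2 true (zero_L_of ho h1)
  | false => exact h2 false (zero_R_of ho h1)

section

variable (hG : Plane G) {a : P} (hA : ∀ e, ¬ (kf G (Lf G e) = 0 ∨ kf G (Rf G e) = 0) ↔ S G a e)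

include hG hA

omit hG [Fintype P] in
theorem two_ne {e : P} (he : S G a e) (d : Bool) : kf G (Fc G d e) ≠ 0 := by
  have h := (hA e).2 he
  intro h0
  cases d with
  | true => exact h (Or.inl h0)
  | false => exact h (Or.inr h0)

/-- The neighbours are one-sided. -/
theorem other_zero {e : P} (he : S G a e) : kf G (Fc G (G.lf (G.nxt e)) (G.nxt e)) = 0 := by
  obtain ⟨k, hk⟩ := exists_kappa hG.conn hG.cross hG.genus
  have h1 : ¬ S G a (G.nxt e) := by
    intro h
    have h2 := not_same_op hG.cross hk (sq G e)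
    rw [op_sq] at h2
    exact h2 ((S_sq he).symm.trans h)
  have h2 : kf G (Lf G (G.nxt e)) = 0 ∨ kf G (Rf G (G.nxt e)) = 0 := by
    by_contra h
    exact h1 ((hA _).1 h)
  have h3 : kf G (Fc G (!(G.lf (G.nxt e))) (G.nxt e)) ≠ 0 := by
    rw [N_other hG.cross rfl]
    exact N_ne hG.cross rfl
  cases hl : G.lf (G.nxt e) with
  | true =>
    rw [hl] at h3
    rcases h2 with h2 | h2
    · exact h2
    · exact absurd h2 h3
  | false =>
    rw [hl] at h3
    rcases h2 with h2 | h2
    · exact absurd h2 h3
    · exact h2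

/-- The exceptional letters. -/
def Ex (G : Sh P) (a : P) (f₀ : Face G) (d : Bool) (e : P) : Prop := S G a e ∧ G.lf (G.nxt e) = d ∧ Fc G d (sq G e) = f₀

theorem NC_step {f₀ : Face G} (h1 : ∀ f, f ≠ f₀ → kf G f ≤ 1) {d : Bool} {e : P} (he : S G a e) (hex : ¬ Ex G a f₀ d e) :
    NC G d (sq G e) = NC G d e := by
  by_cases hl : G.lf (G.nxt e) = d
  · have h3 : Fc G d (sq G e) ≠ f₀ := fun h => hex ⟨he, hl, h⟩
    have h4 := N_ne hG.cross hl
    have h5 := h1 _ h3
    have h6 := other_zero hG hA he
    rw [hl] at h6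
    exact NC_key hG.cross hl (by omega) h6
  · refine NC_skip ?_ (letter_exists hG.cross (two_ne hA (S_sq he)) d)
    cases d <;> cases hl' : G.lf (G.nxt e) <;> simp_all

/-- At most one exceptional letter on the side `d`: all letters on this side have the same cap. -/
theorem NC_const {f₀ : Face G} (h1 : ∀ f, f ≠ f₀ → kf G f ≤ 1) {d : Bool} (hu : ∀ x y, Ex G a f₀ d x → Ex G a f₀ d y → x = y) :
    ∃ p, ∀ e, S G a e → NC G d e = p := by
  obtain ⟨x₀, hx₀, hx₁⟩ : ∃ x₀, S G a x₀ ∧ ∀ y, Ex G a f₀ d y → y = x₀ := by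
    by_cases h : ∃ x, Ex G a f₀ d x
    · obtain ⟨x, hx⟩ := h
      exact ⟨x, hx.1, fun y hy => hu y x hy hx⟩
    · exact ⟨a, Equiv.Perm.SameCycle.refl _ _, fun y hy => absurd ⟨y, hy⟩ h⟩
  refine ⟨NC G d (sq G x₀), fun e he => ?_⟩
  obtain ⟨n, hn⟩ := iter_S ((S_sq hx₀).symm.trans he)
  have h2 := const_one (t := fun k => (sq G)^[k] (sq G x₀)) (fun k => Function.iterate_succ_apply' _ _ _) (F := NC G d) (e₀ := x₀) rfl
    (fun k hk => by
      rw [Function.iterate_succ_apply']
      exact NC_step hG hA h1 ((S_sq hx₀).trans (S_iter _ _)) fun h => hk (hx₁ _ h)) n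
  simp only [Function.iterate_zero, id_eq] at h2
  rw [← hn]
  exact h2

omit hA in
/-- Exceptional letters on both sides do not exist. -/
theorem Ex_side {f₀ : Face G} {d : Bool} {x y : P} (hx : Ex G a f₀ d x) (hy : Ex G a f₀ (!d) y) : False := by
  obtain ⟨k, hk⟩ := exists_kappa hG.conn hG.cross hG.genus
  have h1 : S G (sq G x) (sq G y) := (S_sq hx.1).symm.trans (S_sq hy.1)
  cases d with
  | true => exact not_both_sides hG.cross hk h1 (hx.2.2.trans hy.2.2.symm)
  | false => exact not_both_sides hG.cross hk h1.symm (hy.2.2.trans hx.2.2.symm)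

omit hA in
/-- There are at most two exceptional letters. -/
theorem Ex_two {f₀ : Face G} (h2 : kf G f₀ ≤ 2) {d : Bool} {x y z : P} (hx : Ex G a f₀ d x) (hy : Ex G a f₀ d y) (hxy : x ≠ y)
    (hz : Ex G a f₀ d z) : z = x ∨ z = y := by
  classical
  by_contra hcon
  push Not at hcon
  let cr : P → P := fun e => if d = true then G.nxt e else sq G e
  have hcr : ∀ e, Ex G a f₀ d e → G.lf (cr e) = true ∧ Rf G (cr e) = f₀ := by
    rintro e ⟨-, h4, h5⟩
    cases hd : d with
    | true =>
      rw [hd] at h4 h5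
      simp only [cr, hd, if_true]
      exact ⟨h4, (left_N h4).trans h5⟩
    | false =>
      rw [hd] at h4 h5
      simp only [cr, hd, Bool.false_eq_true, if_false]
      exact ⟨right_lf hG.cross h4, h5⟩
  have hinj : Function.Injective cr := by
    intro u v huv
    simp only [cr] at huv
    split_ifs at huv
    · exact G.nxt.injective huv
    · exact sq_inj huv
  have hc : Nat.card {p : P // G.lf p = true ∧ Rf G p = f₀} ≤ 2 := h2
  rw [Nat.card_eq_fintype_card, Fintype.card_subtype] at hc
  have h3 : ({cr x, cr y, cr z} : Finset P) ⊆ Finset.univ.filter fun p => G.lf p = true ∧ Rf G p = f₀ := by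
    intro u hu
    simp only [Finset.mem_insert, Finset.mem_singleton] at hu
    rw [Finset.mem_filter]
    rcases hu with rfl | rfl | rfl
    · exact ⟨Finset.mem_univ _, hcr x hx⟩
    · exact ⟨Finset.mem_univ _, hcr y hy⟩
    · exact ⟨Finset.mem_univ _, hcr z hz⟩
  have h4 : ({cr x, cr y, cr z} : Finset P).card = 3 := by
    rw [Finset.card_insert_of_notMem, Finset.card_insert_of_notMem, Finset.card_singleton]
    · rw [Finset.mem_singleton]
      exact fun h => hcon.2 (hinj h).symm
    · rw [Finset.mem_insert, Finset.mem_singleton]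
      rintro (h | h)
      · exact hxy (hinj h)
      · exact hcon.1 (hinj h).symm
  have h5 := Finset.card_le_card h3
  omega

/-- **One two-sided circle.** The colours on both sides of the circle are constant. -/
theorem one {s : ℂ} (hs : Sec s) {f₀ : Face G} (h2 : kf G f₀ ≤ 2) (h1 : ∀ f, f ≠ f₀ → kf G f ≤ 1) {c : Face G → ℂ} (hc : Col G s c)
    {e : P} (he : S G a e) (d : Bool) : c (Fc G d (sq G e)) = c (Fc G d e) := by
  classical
  have ho := hG.cross
  -- it is enough to have one point and one period with constant colours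
  have red : ∀ (b : P) (M : ℕ), 0 < M → S G a b → (sq G)^[M] b = b → (∀ k ≤ M, ∀ d, c (Fc G d ((sq G)^[k] b)) = c (Fc G d b)) →
      c (Fc G d (sq G e)) = c (Fc G d e) := by
    intro b M hM0 hb hM hk
    have hall : ∀ n, c (Fc G d ((sq G)^[n] b)) = c (Fc G d b) := by
      intro n
      have h3 : (sq G)^[n] b = (sq G)^[n % M] b := by
        conv_lhs => rw [← Nat.mod_add_div n M]
        rw [Function.iterate_add_apply, Function.iterate_mul]
        congr 1
        exact Function.iterate_fixed hM _
      rw [h3]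
      exact hk _ (Nat.mod_lt _ hM0).le d
    obtain ⟨n, rfl⟩ := iter_S (hb.symm.trans he)
    rw [← Function.iterate_succ_apply' (sq G) n b, hall, hall]
  by_cases hE : ∃ d e e', Ex G a f₀ d e ∧ Ex G a f₀ d e' ∧ e ≠ e'
  · obtain ⟨δ, x, y, hx, hy, hxy⟩ := hE
    have hsx : S G a (sq G x) := S_sq hx.1
    have ex1 : ∃ k, (sq G)^[k] (sq G x) = y := iter_S (hsx.symm.trans hy.1)
    have ex2 : ∃ k, (sq G)^[k] (sq G x) = x := iter_S (hsx.symm.trans hx.1)
    set j := Nat.find ex1 with hj
    set M₀ := Nat.find ex2 with hM₀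
    have hj1 : (sq G)^[j] (sq G x) = y := Nat.find_spec ex1
    have hM1 : (sq G)^[M₀] (sq G x) = x := Nat.find_spec ex2
    have hj2 : ∀ k < j, (sq G)^[k] (sq G x) ≠ y := fun k hk => Nat.find_min ex1 hk
    have hM2 : ∀ k < M₀, (sq G)^[k] (sq G x) ≠ x := fun k hk => Nat.find_min ex2 hk
    have hper : (sq G)^[M₀ + 1] (sq G x) = sq G x := by rw [Function.iterate_succ_apply', hM1]
    have hjM : j < M₀ := by
      by_contra hcon
      rcases Nat.lt_or_ge M₀ j with h3 | h3
      · apply hj2 (j - (M₀ + 1)) (by omega)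
        have h4 : j = (j - (M₀ + 1)) + (M₀ + 1) := by omega
        rw [h4, Function.iterate_add_apply, hper] at hj1
        exact hj1
      · have h4 : j = M₀ := by omega
        rw [h4, hM1] at hj1
        exact hxy hj1
    have hon : ∀ k, S G a ((sq G)^[k] (sq G x)) := fun k => hsx.trans (S_iter _ _)
    have hex : ∀ z, Ex G a f₀ δ z → z = x ∨ z = y := fun z hz => Ex_two hG h2 hx hy hxy hz
    have hcap : ∀ k, NC G (G.lf (G.nxt ((sq G)^[k] (sq G x)))) ((sq G)^[k] (sq G x)) =
        Fc G (G.lf (G.nxt ((sq G)^[k] (sq G x)))) (G.nxt ((sq G)^[k] (sq G x))) := fun k => NC_of rfl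
    -- the first block
    have b1 : ∀ k ≤ j, NC G δ ((sq G)^[k] (sq G x)) = NC G δ (sq G x) := by
      intro k
      induction k with
      | zero => intro _; rfl
      | succ k ih =>
        intro hk
        rw [Function.iterate_succ_apply', NC_step hG hA h1 (hon k), ih (by omega)]
        intro h
        rcases hex _ h with h3 | h3
        · exact hM2 k (by omega) h3
        · exact hj2 k (by omega) h3
    -- the second block
    have b2 : ∀ k, j + 1 ≤ k → k ≤ M₀ → NC G δ ((sq G)^[k] (sq G x)) = NC G δ (sq G y) := by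
      intro k hk
      induction k, hk using Nat.le_induction with
      | base => intro _; rw [Function.iterate_succ_apply', hj1]
      | succ k hk ih =>
        intro hkM
        rw [Function.iterate_succ_apply']
        by_cases h3 : (sq G)^[k] (sq G x) = y
        · rw [h3]
        · rw [NC_step hG hA h1 (hon k), ih (by omega)]
          intro h
          rcases hex _ h with h4 | h4
          · exact hM2 k (by omega) h4
          · exact h3 h4
    -- the other side
    obtain ⟨q, hq⟩ := NC_const hG hA h1 (d := !δ) fun u v hu _ => (Ex_side hG hx hu).elim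
    have hne : (!δ) ≠ δ := by cases δ <;> simp
    refine red (sq G x) (M₀ + 1) (Nat.succ_pos _) hsx hper (loc_T ho hs hc (j := j) (by omega) hper (d := δ)
      (p₁ := NC G δ (sq G x)) (p₂ := NC G δ (sq G y)) (q := q) ?_ ?_ ?_ ?_ ?_ ?_ ?_)
    · rw [hj1]
      exact hy.2.1
    · exact ⟨M₀, by omega, hjM, by rw [hM1]; exact hx.2.1⟩
    · obtain ⟨n, hn⟩ := letter_exists ho (two_ne hA hsx) (!δ)
      refine ⟨n % (M₀ + 1), Nat.mod_lt _ (by omega), ?_⟩
      rw [← hn]
      congr 2
      conv_rhs => rw [← Nat.mod_add_div n (M₀ + 1)]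
      rw [Function.iterate_add_apply, Function.iterate_mul]
      congr 1
      exact (Function.iterate_fixed hper _).symm
    · intro k hk hl hkj
      have h3 := hcap k
      rw [hl] at h3
      rw [← h3, b1 k hkj]
    · intro k hk hl hkj
      have h3 := hcap k
      rw [hl] at h3
      rw [← h3, b2 k (by omega) (by omega)]
    · intro k hk hl
      have h3 := hcap k
      rw [hl] at h3
      rw [← h3, hq _ (hon k)]
    · rw [Function.iterate_succ_apply', hj1, hy.2.2, hx.2.2]
  · push Not at hE
    have hp : ∀ d, ∃ p, ∀ e, S G a e → NC G d e = p := fun d => NC_const hG hA h1 fun x y hx hy => hE d x y hx hy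
    choose p hp using hp
    obtain ⟨N, hN⟩ := iter_S (Equiv.Perm.SameCycle.symm (S_sq (Equiv.Perm.SameCycle.refl _ a) : S G a (sq G a)))
    have hper : (sq G)^[N + 1] a = a := by rw [Function.iterate_succ_apply]; exact hN
    refine red a (N + 1) (Nat.succ_pos _) (Equiv.Perm.SameCycle.refl _ _) hper (loc_const ho hs hc hper ?_ (p := p) ?_)
    · intro d
      obtain ⟨n, hn⟩ := letter_exists ho (two_ne hA (Equiv.Perm.SameCycle.refl _ a)) d
      refine ⟨n % (N + 1), Nat.mod_lt _ (by omega), ?_⟩
      rw [← hn]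
      congr 2
      conv_rhs => rw [← Nat.mod_add_div n (N + 1)]
      rw [Function.iterate_add_apply, Function.iterate_mul]
      congr 1
      exact (Function.iterate_fixed hper _).symm
    · intro k _
      rw [← hp _ _ (S_iter a k)]
      exact (NC_of rfl).symm

end

end Pool.Agent.Helper57.S4
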