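import Pool.Agent.Helper57.S4.OneG

/-!
# MIX: a two-sided circle with one left neighbour and one right neighbour, both one-sided, is rigid
-/

set_option autoImplicit false

namespace Pool.Agent.Helper57.S4

open Pool.Agent.Helper85.Exp Pool.Agent.Helper2.PD Pool.Agent.Helper43.Pln
open Pool.Agent.Helper69.S4 (Sec)

variable {P : Type} [Fintype P] {G : Sh P}

/-- A zero face is on its side of the whole circle. -/
theorem cap_same (ho : ∀ i, G.op i ≠ i) {d : Bool} {x y : P} (h : kf G (Fc G d x) = 0) (hs : S G x y) : Fc G d y = Fc G d x := by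
  obtain ⟨n, rfl⟩ := iter_S hs
  exact cap_iter ho h n

/-- Constant on one period: constant on the circle. -/
theorem period_red {A : Type*} {F : P → A} {b e : P} {M : ℕ} (hM0 : 0 < M) (hM : (sq G)^[M] b = b)
    (hk : ∀ k ≤ M, F ((sq G)^[k] b) = F b) (he : S G b e) : F (sq G e) = F e := by
  have hall : ∀ n, F ((sq G)^[n] b) = F b := by
    intro n
    have h3 : (sq G)^[n] b = (sq G)^[n % M] b := by
      conv_lhs => rw [← Nat.mod_add_div n M]
      rw [Function.iterate_add_apply, Function.iterate_mul]
      congr 1
      exact Function.iterate_fixed hM _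
    rw [h3]
    exact hk _ (Nat.mod_lt _ hM0).le
  obtain ⟨n, rfl⟩ := iter_S he
  rw [← Function.iterate_succ_apply' (sq G) n b, hall, hall]

/-- **Rigid circles, type (1, 1).** The circle of `a` has crossings on both sides, all circles which meet it on the side `d` are the circle of `x d`, and the far side of
this circle is a zero face. Then every colouring is constant on both sides of the circle of `a`. -/
theorem rigid11 (ho : ∀ i, G.op i ≠ i) {s : ℂ} (hs : Sec s) {c : Face G → ℂ} (hc : Col G s c) {a : P} (h2 : ∀ d, kf G (Fc G d a) ≠ 0)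
    {x : Bool → P} (hx : ∀ d, kf G (Fc G d (x d)) = 0) (hn : ∀ e, S G a e → S G (x (G.lf (G.nxt e))) (G.nxt e)) {e : P}
    (he : S G a e) (d : Bool) : c (Fc G d (sq G e)) = c (Fc G d e) := by
  obtain ⟨N, hN⟩ := iter_S (Equiv.Perm.SameCycle.symm (S_sq (Equiv.Perm.SameCycle.refl _ a) : S G a (sq G a)))
  have hper : (sq G)^[N + 1] a = a := by rw [Function.iterate_succ_apply]; exact hN
  have hk := loc_const ho hs hc hper (fun d => by
      obtain ⟨n, hn⟩ := letter_exists ho h2 d
      refine ⟨n % (N + 1), Nat.mod_lt _ (by omega), ?_⟩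
      rw [← hn]
      congr 2
      conv_rhs => rw [← Nat.mod_add_div n (N + 1)]
      rw [Function.iterate_add_apply, Function.iterate_mul]
      congr 1
      exact (Function.iterate_fixed hper _).symm) (p := fun d => Fc G d (x d))
    (fun k _ => cap_same ho (hx _) (hn _ (S_iter a k)))
  exact period_red (F := fun e => c (Fc G d e)) (Nat.succ_pos N) hper (fun k hkM => hk k hkM d) he

end Pool.Agent.Helper57.S4
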